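import Pool.Agent.Helper36.LX.Sheet2
open MeasureTheory Metric Set Filter Topology Real
open scoped ENNReal NNReal

namespace H11ST
namespace LX

theorem ufin : LX_UFIN := by
  intro H
  refine ⟨324, by norm_num, ?_⟩
  intro d hd t ht0 ht1
  have h1t : 0 < 1 - t := sub_pos.2 ht1
  have hd2 : (2 : ℝ) ≤ d := by exact_mod_cast hd
  obtain ⟨u, hu⟩ : ∃ u : ℝ, u = d / (1 - t) := ⟨_, rfl⟩
  have hu2 : 2 ≤ u := by
    rw [hu, le_div_iff₀ h1t]; nlinarith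
  have hu0 : 0 < u := by linarith
  have hu1 : 1 / (1 - t) ≤ u := by
    rw [hu]; gcongr; linarith
  obtain ⟨W, hW⟩ : ∃ W : ℝ, W = (324 * d / (1 - t)) ^ (((d : ℝ) + 1) / 2) := ⟨_, rfl⟩
  have hbase : 324 * (d : ℝ) / (1 - t) = 324 * u := by rw [hu]; ring
  have hW0 : 0 < W := by
    rw [hW, hbase]; exact Real.rpow_pos_of_pos (by positivity) _
  have hW2 : W ^ 2 = (324 * u) ^ (d + 1) := by
    rw [hW, hbase, ← Real.rpow_natCast, ← Real.rpow_mul (by positivity), ← Real.rpow_natCast]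
    congr 1
    push_cast
    ring
  rw [← hW]
  -- the choice of K
  obtain ⟨K, hK⟩ : ∃ K : ℕ, K = ⌊√(64 / 3 * u)⌋₊ + 1 := ⟨_, rfl⟩
  have hK1 : √(64 / 3 * u) < K := by
    rw [hK]; push_cast; exact Nat.lt_floor_add_one _
  have hKpos : (0 : ℝ) < K := lt_of_le_of_lt (Real.sqrt_nonneg _) hK1
  have hKsq : 64 / 3 * u < (K : ℝ) ^ 2 := by
    rw [← Real.sqrt_lt' hKpos]; exact hK1
  have hKle : (K : ℝ) ≤ 6 * √u := by
    have h1 : (K : ℝ) ≤ √(64 / 3 * u) + 1 := by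
      rw [hK]; push_cast
      have := Nat.floor_le (Real.sqrt_nonneg (64 / 3 * u))
      linarith
    have h2 : √(64 / 3 * u) ≤ 5 * √u := by
      rw [Real.sqrt_le_left (by positivity), mul_pow, Real.sq_sqrt hu0.le]
      linarith
    have h3 : 1 ≤ √u := by rw [Real.one_le_sqrt]; linarith
    linarith
  have hKle2 : (K : ℝ) ^ 2 ≤ 36 * u := by
    calc (K : ℝ) ^ 2 ≤ (6 * √u) ^ 2 := pow_le_pow_left₀ hKpos.le hKle 2
      _ = 36 * u := by rw [mul_pow, Real.sq_sqrt hu0.le]; norm_num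
  have hle : Nloc d t ≤ (⌊W⌋₊ : ℕ) := by
    refine Nloc_le fun A S x r hL Y hY hb hT => ?_
    refine Nat.le_floor ?_
    have L := hL.adm
    have hA := hL.compact.isClosed
    have hr := L.rpos
    have htr : t * r < r := by nlinarith
    have htr0 : 0 < t * r := mul_pos ht0 hr
    obtain ⟨y, hy⟩ := hY
    have G := gi_at (by omega) (gi d (Pool.Agent.Helper73.ST.core d)) L hA (hT y hy)
    have hcount : ∀ ρ, t * r ≤ ρ → ρ < r → ((Y.card + 2 : ℕ) : ℕ∞) ≤ (S ∩ sphere x ρ).encard :=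
      fun ρ h1 h2 => L.sphere_count hA Y ⟨y, hy⟩ hb hT h1 h2
    obtain ⟨a, ha⟩ : ∃ a : ℝ, a = (1 + t) / 2 * r := ⟨_, rfl⟩
    have hta : t * r ≤ a := by rw [ha]; nlinarith
    have har : a < r := by rw [ha]; nlinarith
    have ha0 : 0 < a := htr0.trans_le hta
    have h1 := G (t * r) a htr0.le hta har (Y.card + 2) (fun ρ hρ =>
      hcount ρ hρ.1.le (hρ.2.trans har))
    have hra : r ^ 2 * (3 / 4 * (1 - t)) ≤ r ^ 2 - a ^ 2 := by
      have h6 : r ^ 2 - a ^ 2 = r ^ 2 * (3 / 4 * (1 - t)) + r ^ 2 * (t * (1 - t)) / 4 := by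
        rw [ha]; ring
      have h7 : 0 ≤ r ^ 2 * (t * (1 - t)) / 4 := by positivity
      linarith
    have hKa : 16 * d * r ^ 2 / K ^ 2 < r ^ 2 - a ^ 2 := by
      refine lt_of_lt_of_le ?_ hra
      rw [div_lt_iff₀ (by positivity)]
      have h6 : (1 - t) * u = d := by rw [hu]; field_simp
      have h7 : (1 - t) * (64 / 3 * u) < (1 - t) * (K : ℝ) ^ 2 := by gcongr
      have h8 : 64 / 3 * (d : ℝ) < (1 - t) * (K : ℝ) ^ 2 := by
        rw [← h6]; linarith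
      have h9 : r ^ 2 * (3 / 4) * (64 / 3 * (d : ℝ)) < r ^ 2 * (3 / 4) * ((1 - t) * (K : ℝ) ^ 2) :=
        by gcongr
      linarith
    have h2 := H d hd A S x r L hA G a ha0 har (fun ρ h3 h4 => by
      rw [← Set.encard_pos]
      refine lt_of_lt_of_le ?_ (hcount ρ (hta.trans h3) h4)
      exact_mod_cast Nat.succ_pos _) K (by omega) hKa
    have h4 := sq_nonneg (len S x (t * r))
    have hc0 : (0 : ℝ) ≤ Y.card := Nat.cast_nonneg _
    push_cast at h1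
    have h5 : (Y.card : ℝ) ^ 2 * ((1 - t) / 4 * r ^ 2) ≤ len S x a ^ 2 := by
      have h6 : a ^ 2 - (t * r) ^ 2 = (1 - t) * (1 + 3 * t) / 4 * r ^ 2 := by rw [ha]; ring
      rw [h6] at h1
      have h7 : (1 - t) / 4 * r ^ 2 ≤ (1 - t) * (1 + 3 * t) / 4 * r ^ 2 := by
        have : 0 ≤ (1 - t) * t * r ^ 2 := by positivity
        nlinarith
      have h8 : (Y.card : ℝ) ^ 2 ≤ ((Y.card : ℝ) + 2) ^ 2 := by nlinarith
      have h9 : 0 ≤ (1 - t) / 4 * r ^ 2 := by positivity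
      calc (Y.card : ℝ) ^ 2 * ((1 - t) / 4 * r ^ 2) ≤ ((Y.card : ℝ) + 2) ^ 2 *
            ((1 - t) * (1 + 3 * t) / 4 * r ^ 2) := mul_le_mul h8 h7 h9 (by positivity)
        _ ≤ _ := by linarith
    have h6 : len S x a ^ 2 ≤ (2 * r * (3 * K : ℝ) ^ d) ^ 2 :=
      pow_le_pow_left₀ (len_nonneg _ _ _) h2.le 2
    have h7 : (2 * r * (3 * K : ℝ) ^ d) ^ 2 ≤ 4 * r ^ 2 * (324 * u) ^ d := by
      have e1 : (2 * r * (3 * K : ℝ) ^ d) ^ 2 = 4 * r ^ 2 * ((9 * (K : ℝ) ^ 2) ^ d) := by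
        have e2 : (9 * (K : ℝ) ^ 2) = (3 * (K : ℝ)) ^ 2 := by ring
        rw [e2, ← pow_mul, mul_comm 2 d, pow_mul]
        ring
      rw [e1]
      have h8 : 9 * (K : ℝ) ^ 2 ≤ 324 * u := by linarith
      gcongr
    have h8 : (Y.card : ℝ) ^ 2 * ((1 - t) / 4 * r ^ 2) ≤ 4 * r ^ 2 * (324 * u) ^ d :=
      h5.trans (h6.trans h7)
    have h9 : (Y.card : ℝ) ^ 2 ≤ 16 * (1 / (1 - t)) * (324 * u) ^ d := by
      have h10 : (Y.card : ℝ) ^ 2 * ((1 - t) / 4 * r ^ 2) ≤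
          (16 * (1 / (1 - t)) * (324 * u) ^ d) * ((1 - t) / 4 * r ^ 2) := by
        refine h8.trans (le_of_eq ?_)
        field_simp
        ring
      exact le_of_mul_le_mul_right h10 (by positivity)
    refine le_of_sq_le_sq ?_ hW0.le
    rw [hW2, pow_succ]
    calc (Y.card : ℝ) ^ 2 ≤ 16 * (1 / (1 - t)) * (324 * u) ^ d := h9
      _ ≤ 16 * u * (324 * u) ^ d := by gcongr
      _ ≤ 324 * u * (324 * u) ^ d := by gcongr; norm_num
      _ = (324 * u) ^ d * (324 * u) := by ring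
  obtain ⟨n, hn⟩ := ENat.ne_top_iff_exists.1 (ne_top_of_le_ne_top (ENat.natCast_ne_top _) hle)
  refine ⟨n, hn.symm, ?_⟩
  rw [← hn] at hle
  have h1 : n ≤ ⌊W⌋₊ := by exact_mod_cast hle
  calc (n : ℝ) ≤ (⌊W⌋₊ : ℝ) := by exact_mod_cast h1
    _ ≤ _ := Nat.floor_le hW0.le

end LX
end H11ST
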